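import Pool.Agent.V11317.Prim.Bound

set_option autoImplicit false

/-!
# Primitive inner illuminating sets in three-dimensional space
-/

namespace Pool.Agent.V11317.Prim

open Module Set

abbrev E3 := EuclideanSpace ℝ (Fin 3)

/-- The points `(x, 1)`, `x ∈ K`. -/
def lift (K : Set E3) : Set (E3 × ℝ) := {p | p.1 ∈ K ∧ p.2 = 1}

/-- The functional `(x, t) ↦ c t - f x`. -/
noncomputable def func (f : E3 →L[ℝ] ℝ) (c : ℝ) : E3 × ℝ →ₗ[ℝ] ℝ :=
  c • LinearMap.snd ℝ E3 ℝ - (f : E3 →ₗ[ℝ] ℝ) ∘ₗ LinearMap.fst ℝ E3 ℝ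

theorem func_apply (f : E3 →L[ℝ] ℝ) (c : ℝ) (x : E3) (t : ℝ) : func f c (x, t) = c * t - f x := by
  simp [func]

theorem cof_of_not {K : Set E3} (hKc : IsCompact K) (hK : Convex ℝ K)
    (hne : (interior K).Nonempty) {x y : E3} (hx : x ∈ K) (hy : y ∈ K)
    (h : ¬ ((1 - (1 / 2 : ℝ)) • x + (1 / 2 : ℝ) • y ∈ interior K)) :
    ∃ φ : E3 × ℝ →ₗ[ℝ] ℝ, Pos (lift K) φ ∧ φ (x, 1) = 0 ∧ φ (y, 1) = 0 := by
  set m := (1 - (1 / 2 : ℝ)) • x + (1 / 2 : ℝ) • y with hm
  obtain ⟨f, hf⟩ := geometric_hahn_banach_open_point hK.interior isOpen_interior h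
  have hle : ∀ z ∈ K, f z ≤ f m := by
    intro z hz
    have h1 : z ∈ closure (interior K) := by
      rw [hK.closure_interior_eq_closure_of_nonempty_interior hne]
      exact subset_closure hz
    have h2 : closure (interior K) ⊆ {w | f w ≤ f m} :=
      closure_minimal (fun w hw => (hf w hw).le) (isClosed_le f.continuous continuous_const)
    exact h2 h1
  have e1 : f m = (1 - (1 / 2 : ℝ)) * f x + (1 / 2 : ℝ) * f y := by
    rw [hm]; simp
  have l1 := hle x hx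
  have l2 := hle y hy
  have ex : f x = f m := by linarith
  have ey : f y = f m := by linarith
  obtain ⟨z, hz⟩ := hne
  refine ⟨func f (f m), ⟨?_, ?_⟩, ?_, ?_⟩
  · intro h0
    have h1 : func f (f m) (z, 1) = 0 := by rw [h0]; rfl
    rw [func_apply] at h1
    have := hf z hz
    linarith
  · rintro ⟨w, t⟩ ⟨hw, ht⟩
    simp only at hw ht
    rw [ht, func_apply]
    have := hle w hw
    linarith
  · rw [func_apply, ex]; ring
  · rw [func_apply, ey]; ring

theorem ncof_of {K : Set E3} {x y : E3} {ε : ℝ}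
    (h : (1 - ε) • x + ε • y ∈ interior K) {φ : E3 × ℝ →ₗ[ℝ] ℝ} (P : Pos (lift K) φ)
    (hx : φ (x, 1) = 0) (hy : φ (y, 1) = 0) : False := by
  set m := (1 - ε) • x + ε • y with hm
  have e0 : φ (m, 1) = 0 := by
    have : ((m, 1) : E3 × ℝ) = (1 - ε) • (x, (1 : ℝ)) + ε • (y, (1 : ℝ)) := by
      ext <;> simp [hm]
    rw [this, map_add, map_smul, map_smul, hx, hy]; simp
  obtain ⟨r, hr, hball⟩ := Metric.isOpen_iff.1 isOpen_interior m h
  have key : ∀ u : E3, φ (u, 0) = 0 := by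
    intro u
    set δ := r / (2 * (‖u‖ + 1)) with hδ
    have hn : 0 ≤ ‖u‖ := norm_nonneg u
    have hδ0 : 0 < δ := div_pos hr (by linarith)
    have hlt : δ * ‖u‖ < r := by
      rw [hδ, div_mul_eq_mul_div, div_lt_iff₀ (by linarith)]
      nlinarith
    have p1 : m + δ • u ∈ K := by
      apply interior_subset
      apply hball
      rw [Metric.mem_ball, dist_eq_norm, add_sub_cancel_left, norm_smul, Real.norm_eq_abs,
        abs_of_pos hδ0]
      exact hlt
    have p2 : m - δ • u ∈ K := by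
      apply interior_subset
      apply hball
      rw [Metric.mem_ball, dist_eq_norm, sub_sub_cancel_left, norm_neg, norm_smul,
        Real.norm_eq_abs, abs_of_pos hδ0]
      exact hlt
    have q1 := P.2 (m + δ • u, 1) ⟨p1, rfl⟩
    have q2 := P.2 (m - δ • u, 1) ⟨p2, rfl⟩
    have s1 : ((m + δ • u, 1) : E3 × ℝ) = (m, (1 : ℝ)) + δ • (u, (0 : ℝ)) := by
      ext <;> simp
    have s2 : ((m - δ • u, 1) : E3 × ℝ) = (m, (1 : ℝ)) - δ • (u, (0 : ℝ)) := by
      ext <;> simp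
    rw [s1, map_add, map_smul, e0, zero_add, smul_eq_mul] at q1
    rw [s2, map_sub, map_smul, e0, zero_sub, smul_eq_mul] at q2
    have : δ * φ (u, 0) = 0 := by linarith
    exact (mul_eq_zero.1 this).resolve_left hδ0.ne'
  apply P.1
  ext u
  · simpa using key u
  · have h2 : ((0, 1) : E3 × ℝ) = (m, (1 : ℝ)) - (m, (0 : ℝ)) := by ext <;> simp
    have h3 : φ (0, 1) = 0 := by rw [h2, map_sub, e0, key, sub_zero]
    simpa using h3

theorem main (K : Set E3) (hKc : IsCompact K) (hK : Convex ℝ K) (hne : (interior K).Nonempty)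
    (A : Set E3)
    (hA : A ⊆ frontier K ∧ ∀ x ∈ frontier K, ∃ a ∈ A, ∃ ε : ℝ, 0 < ε ∧ ε < 1 ∧
      (1 - ε) • x + ε • a ∈ interior K)
    (hB : ∀ B : Set E3, B ⊆ A → B ≠ A → ¬ (B ⊆ frontier K ∧
      ∀ x ∈ frontier K, ∃ b ∈ B, ∃ ε : ℝ, 0 < ε ∧ ε < 1 ∧
        (1 - ε) • x + ε • b ∈ interior K)) :
    A.encard ≤ 175 := by
  classical
  by_contra hcon
  push Not at hcon
  have h176 : (176 : ℕ∞) ≤ A.encard := by
    have := Order.add_one_le_of_lt hcon
    norm_num at this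
    exact this
  obtain ⟨T, hTA, hT⟩ := Set.exists_subset_encard_eq h176
  have hTf : T.Finite := Set.finite_of_encard_eq_coe (k := 176) hT
  haveI : Fintype T := hTf.fintype
  have hcard : Fintype.card T = 176 := by
    have h1 : T.encard = (Fintype.card T : ℕ∞) := by
      rw [Set.encard_eq_coe_toFinset_card, Set.toFinset_card]
    rw [hT] at h1
    exact_mod_cast h1.symm
  have hfr : frontier K ⊆ K := hKc.isClosed.frontier_subset
  have hv : ∀ a : T, ∃ x ∈ frontier K, (∃ ε : ℝ, (1 - ε) • x + ε • a.1 ∈ interior K) ∧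
      ∀ b : T, b ≠ a → ¬ ((1 - (1 / 2 : ℝ)) • x + (1 / 2 : ℝ) • b.1 ∈ interior K) := by
    intro a
    have h1 := hB (A \ {a.1}) Set.diff_subset (fun h => by
      have : a.1 ∈ A \ {a.1} := by rw [h]; exact hTA a.2
      exact this.2 rfl)
    have h2 : A \ {a.1} ⊆ frontier K := fun z hz => hA.1 hz.1
    have h3 : ¬ ∀ x ∈ frontier K, ∃ b ∈ A \ {a.1}, ∃ ε : ℝ, 0 < ε ∧ ε < 1 ∧
        (1 - ε) • x + ε • b ∈ interior K := fun h => h1 ⟨h2, h⟩
    push Not at h3
    obtain ⟨x, hx, h4⟩ := h3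
    refine ⟨x, hx, ?_, ?_⟩
    · obtain ⟨b, hb, ε, e0, e1, h5⟩ := hA.2 x hx
      by_cases hba : b = a.1
      · rw [hba] at h5; exact ⟨ε, h5⟩
      · exact absurd h5 (h4 b ⟨hb, hba⟩ ε e0 e1)
    · intro b hb
      exact h4 b.1 ⟨hTA b.2, fun h => hb (Subtype.ext h)⟩ (1 / 2) (by norm_num) (by norm_num)
  choose x hx1 hx2 hx3 using hv
  have S : Sys (lift K) (LinearMap.snd ℝ E3 ℝ) (fun a : T => ((a.1, 1) : E3 × ℝ))
      (fun a : T => ((x a, 1) : E3 × ℝ)) := by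
    refine ⟨?_, ?_, ?_, ?_, ?_, ?_⟩
    · simp [Module.finrank_prod, E3]
    · rintro ⟨w, t⟩ ⟨_, ht⟩
      exact ht
    · intro a
      exact ⟨hfr (hA.1 (hTA a.2)), rfl⟩
    · intro a
      exact ⟨hfr (hx1 a), rfl⟩
    · intro a b hab
      obtain ⟨φ, P, h1, h2⟩ := cof_of_not hKc hK hne (hfr (hx1 b)) (hfr (hA.1 (hTA a.2)))
        (hx3 b a hab)
      exact ⟨φ, P, h2, h1⟩
    · intro a φ P h1 h2
      obtain ⟨ε, hε⟩ := hx2 a
      exact ncof_of hε P h2 h1
  have := S.bound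
  omega

end Pool.Agent.V11317.Prim
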