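import Pool.Agent.V11317.Prim.Sys

set_option autoImplicit false

/-!
# The complete bipartite graph on three and three points of the boundary
-/

namespace Pool.Agent.V11317.Prim

open Module Set

variable {V : Type*} [AddCommGroup V] [Module ℝ V]
variable {ι : Type*} {K : Set V} {e : V →ₗ[ℝ] ℝ} {a v : ι → V}

abbrev W6 := (Fin 3 → ℝ) × (Fin 3 → ℝ)

/-- The linear relations. -/
noncomputable def rel (x y : Fin 3 → V) : W6 →ₗ[ℝ] V where
  toFun c := ∑ i, c.1 i • x i + ∑ j, c.2 j • y j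
  map_add' c d := by
    simp only [Prod.fst_add, Prod.snd_add, Pi.add_apply, add_smul, Finset.sum_add_distrib]
    abel
  map_smul' r c := by
    simp only [Prod.smul_fst, Prod.smul_snd, Pi.smul_apply, smul_eq_mul, mul_smul,
      ← Finset.smul_sum, RingHom.id_apply, smul_add]

def U1 (x y : Fin 3 → V) : Set (LinearMap.ker (rel x y)) :=
  ⋃ i : Fin 3, ⋃ k : Fin 3, ⋃ (_ : i ≠ k), {w | 0 < w.1.1 i} ∩ {w | 0 < w.1.1 k}

def U2 (x y : Fin 3 → V) : Set (LinearMap.ker (rel x y)) :=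
  ⋃ i : Fin 3, ⋃ k : Fin 3, ⋃ (_ : i ≠ k), {w | 0 < w.1.2 i} ∩ {w | 0 < w.1.2 k}

theorem U1_open (x y : Fin 3 → V) : IsOpen (U1 x y) := by
  refine isOpen_iUnion fun i => isOpen_iUnion fun k => isOpen_iUnion fun _ => ?_
  exact (isOpen_lt continuous_const (by fun_prop)).inter
    (isOpen_lt continuous_const (by fun_prop))

theorem U2_open (x y : Fin 3 → V) : IsOpen (U2 x y) := by
  refine isOpen_iUnion fun i => isOpen_iUnion fun k => isOpen_iUnion fun _ => ?_
  exact (isOpen_lt continuous_const (by fun_prop)).inter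
    (isOpen_lt continuous_const (by fun_prop))

theorem no_both {f : Fin 3 → ℝ} (h1 : ∃ i k, i ≠ k ∧ 0 < f i ∧ 0 < f k)
    (h2 : ∃ i k, i ≠ k ∧ f i < 0 ∧ f k < 0) : False := by
  obtain ⟨i, k, hik, hi, hk⟩ := h1
  obtain ⟨j, l, hjl, hj, hl⟩ := h2
  have h1 : i ≠ j := by rintro rfl; linarith
  have h2 : i ≠ l := by rintro rfl; linarith
  have h3 : k ≠ j := by rintro rfl; linarith
  have h4 : k ≠ l := by rintro rfl; linarith
  omega

theorem sign (hd : finrank ℝ V = 4) (x y : Fin 3 → V) :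
    ∃ c : W6, c ≠ 0 ∧ rel x y c = 0 ∧ ¬ (∃ i k, i ≠ k ∧ 0 < c.1 i ∧ 0 < c.1 k) ∧
      ¬ (∃ i k, i ≠ k ∧ 0 < c.2 i ∧ 0 < c.2 k) := by
  by_contra hcon
  push Not at hcon
  haveI : FiniteDimensional ℝ V := FiniteDimensional.of_finrank_pos (by rw [hd]; norm_num)
  have m1 : ∀ w : LinearMap.ker (rel x y), w ∈ U1 x y ↔ ∃ i k, i ≠ k ∧ 0 < w.1.1 i ∧ 0 < w.1.1 k := by
    intro w; simp only [U1, Set.mem_iUnion, Set.mem_inter_iff, Set.mem_ofPred_eq, exists_prop]
  have m2 : ∀ w : LinearMap.ker (rel x y), w ∈ U2 x y ↔ ∃ i k, i ≠ k ∧ 0 < w.1.2 i ∧ 0 < w.1.2 k := by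
    intro w; simp only [U2, Set.mem_iUnion, Set.mem_inter_iff, Set.mem_ofPred_eq, exists_prop]
  have hcov : ∀ w : LinearMap.ker (rel x y), w ≠ 0 → w ∈ U1 x y ∪ U2 x y := by
    intro w hw
    rw [Set.mem_union, m1, m2]
    by_contra h
    push Not at h
    obtain ⟨i, k, hik, h1, h2⟩ := hcon w.1 (fun h0 => hw (Subtype.ext h0)) w.2
      (fun i k hik hi => h.1 i k hik hi)
    exact absurd h2 (not_lt.2 (h.2 i k hik h1))
  have neg1 : ∀ w : LinearMap.ker (rel x y), w ∈ U1 x y → -w ∉ U1 x y := by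
    intro w h1 h2
    rw [m1] at h1 h2
    refine no_both h1 ?_
    obtain ⟨i, k, hik, hi, hk⟩ := h2
    exact ⟨i, k, hik, by simpa using hi, by simpa using hk⟩
  have neg2 : ∀ w : LinearMap.ker (rel x y), w ∈ U2 x y → -w ∉ U2 x y := by
    intro w h1 h2
    rw [m2] at h1 h2
    refine no_both h1 ?_
    obtain ⟨i, k, hik, hi, hk⟩ := h2
    exact ⟨i, k, hik, by simpa using hi, by simpa using hk⟩
  have hrank : 2 ≤ finrank ℝ (LinearMap.ker (rel x y)) := by
    have h1 := LinearMap.finrank_range_add_finrank_ker (rel x y)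
    have h2 : finrank ℝ W6 = 6 := by simp [W6]
    have h3 := Submodule.finrank_le (LinearMap.range (rel x y))
    rw [hd] at h3
    omega
  have hconn : IsPreconnected ({0}ᶜ : Set (LinearMap.ker (rel x y))) := by
    refine (isConnected_compl_singleton_of_one_lt_rank ?_ _).isPreconnected
    have := Module.lt_rank_of_lt_finrank (R := ℝ) (M := LinearMap.ker (rel x y)) (n := 1) (by omega)
    simpa using this
  obtain ⟨w, hw⟩ : ∃ w : LinearMap.ker (rel x y), w ≠ 0 := by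
    have : Nontrivial (LinearMap.ker (rel x y)) :=
      Module.nontrivial_of_finrank_pos (R := ℝ) (by omega)
    exact exists_ne 0
  have ne : (({0}ᶜ : Set (LinearMap.ker (rel x y))) ∩ U1 x y).Nonempty ∧
      (({0}ᶜ : Set (LinearMap.ker (rel x y))) ∩ U2 x y).Nonempty := by
    rcases hcov w hw with h | h
    · refine ⟨⟨w, hw, h⟩, ⟨-w, neg_ne_zero.2 hw, ?_⟩⟩
      exact (hcov (-w) (neg_ne_zero.2 hw)).resolve_left (neg1 w h)
    · refine ⟨⟨-w, neg_ne_zero.2 hw, ?_⟩, ⟨w, hw, h⟩⟩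
      exact (hcov (-w) (neg_ne_zero.2 hw)).resolve_right (neg2 w h)
  obtain ⟨z, hz, hz1, hz2⟩ := hconn (U1 x y) (U2 x y) (U1_open x y) (U2_open x y)
    (fun z hz => hcov z hz) ne.1 ne.2
  rcases hcov (-z) (neg_ne_zero.2 hz) with h | h
  · exact neg1 z hz1 h
  · exact neg2 z hz2 h

theorem at_most_one {f : Fin 3 → ℝ} (h : ¬ ∃ i k, i ≠ k ∧ 0 < f i ∧ 0 < f k) :
    ∃ i, ∀ k, k ≠ i → f k ≤ 0 := by
  by_cases h0 : ∃ i, 0 < f i
  · obtain ⟨i, hi⟩ := h0
    refine ⟨i, fun k hk => ?_⟩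
    by_contra hc
    push Not at hc
    exact h ⟨i, k, hk.symm, hi, hc⟩
  · push Not at h0
    exact ⟨0, fun k _ => h0 k⟩

theorem third (i : Fin 3) : ∃ m k : Fin 3, i ≠ m ∧ i ≠ k ∧ m ≠ k := by
  fin_cases i
  · exact ⟨1, 2, by decide, by decide, by decide⟩
  · exact ⟨0, 2, by decide, by decide, by decide⟩
  · exact ⟨0, 1, by decide, by decide, by decide⟩

theorem sum3 {M : Type*} [AddCommMonoid M] (f : Fin 3 → M) {i m k : Fin 3} (h1 : i ≠ m)
    (h2 : i ≠ k) (h3 : m ≠ k) : ∑ j, f j = f i + f m + f k := by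
  rw [Fin.sum_univ_three]
  fin_cases i <;> fin_cases m <;> fin_cases k <;>
    first
    | exact absurd rfl h1
    | exact absurd rfl h2
    | exact absurd rfl h3
    | rfl
    | (simp only [Fin.zero_eta, Fin.mk_one, Fin.reduceFinMk]; abel)

/-- Three points `a` and three points `v` in general position do not exist. -/
theorem Sys.k33 (S : Sys K e a v) {p q : Fin 3 → ι} (hpq : ∀ i j, p i ≠ q j)
    (R1 : ∀ φ : V →ₗ[ℝ] ℝ, Pos K φ → (∀ i, φ (a (p i)) = 0) → False)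
    (R2 : ∀ φ : V →ₗ[ℝ] ℝ, Pos K φ → (∀ i, φ (v (q i)) = 0) → False)
    (R3 : ∀ i k, i ≠ k → ∀ j l, j ≠ l → ∀ φ : V →ₗ[ℝ] ℝ, Pos K φ → φ (a (p i)) = 0 →
      φ (a (p k)) = 0 → φ (v (q j)) = 0 → φ (v (q l)) = 0 → False)
    (R5 : ∀ i k j, i ≠ k → LI3 (a (p i)) (a (p k)) (v (q j)))
    (R6 : ∀ j l i, j ≠ l → LI3 (v (q j)) (v (q l)) (a (p i))) : False := by
  obtain ⟨c, hc0, hc, h1, h2⟩ := sign S.dim (fun i => a (p i)) (fun j => v (q j))
  obtain ⟨i, hi⟩ := at_most_one h1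
  obtain ⟨j, hj⟩ := at_most_one h2
  obtain ⟨φ, P, φa, φv⟩ := S.cof (p i) (q j) (hpq i j)
  have hrel : ∑ k, c.1 k • a (p k) + ∑ l, c.2 l • v (q l) = 0 := hc
  have hφ : ∑ k, c.1 k * φ (a (p k)) + ∑ l, c.2 l * φ (v (q l)) = 0 := by
    have := congrArg φ hrel
    simpa using this
  have t1 : ∀ k, c.1 k * φ (a (p k)) ≤ 0 := by
    intro k
    by_cases hk : k = i
    · rw [hk, φa, mul_zero]
    · exact mul_nonpos_of_nonpos_of_nonneg (hi k hk) (P.2 _ (S.ha _))
  have t2 : ∀ k, c.2 k * φ (v (q k)) ≤ 0 := by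
    intro k
    by_cases hk : k = j
    · rw [hk, φv, mul_zero]
    · exact mul_nonpos_of_nonpos_of_nonneg (hj k hk) (P.2 _ (S.hv _))
  have s1 : ∑ k, c.1 k * φ (a (p k)) ≤ 0 := Finset.sum_nonpos fun k _ => t1 k
  have s2 : ∑ l, c.2 l * φ (v (q l)) ≤ 0 := Finset.sum_nonpos fun k _ => t2 k
  have z1 : ∀ k, c.1 k * φ (a (p k)) = 0 := by
    have : ∑ k, c.1 k * φ (a (p k)) = 0 := by linarith
    intro k
    exact (Finset.sum_eq_zero_iff_of_nonpos fun k _ => t1 k).1 this k (Finset.mem_univ k)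
  have z2 : ∀ k, c.2 k * φ (v (q k)) = 0 := by
    have : ∑ k, c.2 k * φ (v (q k)) = 0 := by linarith
    intro k
    exact (Finset.sum_eq_zero_iff_of_nonpos fun k _ => t2 k).1 this k (Finset.mem_univ k)
  have w1 : ∀ k, c.1 k ≠ 0 → φ (a (p k)) = 0 := fun k hk => (mul_eq_zero.1 (z1 k)).resolve_left hk
  have w2 : ∀ k, c.2 k ≠ 0 → φ (v (q k)) = 0 := fun k hk => (mul_eq_zero.1 (z2 k)).resolve_left hk
  by_cases hA : ∃ k, k ≠ i ∧ c.1 k ≠ 0
  · by_cases hB : ∃ l, l ≠ j ∧ c.2 l ≠ 0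
    · obtain ⟨k, hk, hk0⟩ := hA
      obtain ⟨l, hl, hl0⟩ := hB
      exact R3 i k hk.symm j l hl.symm φ P φa (w1 k hk0) φv (w2 l hl0)
    · push Not at hB
      obtain ⟨l, l', jl, jl', ll'⟩ := third j
      rw [sum3 (fun l => c.2 l • v (q l)) jl jl' ll', hB l jl.symm, hB l' jl'.symm, zero_smul,
        zero_smul, add_zero, add_zero] at hrel
      obtain ⟨k, hk, hk0⟩ := hA
      by_cases hC : ∀ m, m ≠ i → c.1 m ≠ 0
      · refine R1 φ P fun m => ?_
        by_cases hm : m = i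
        · rw [hm, φa]
        · exact w1 m (hC m hm)
      · push Not at hC
        obtain ⟨m, hm, hm0⟩ := hC
        have hkm : k ≠ m := by rintro rfl; exact hk0 hm0
        rw [sum3 (fun l => c.1 l • a (p l)) hk.symm hm.symm hkm, hm0, zero_smul, add_zero] at hrel
        exact hk0 (R5 i k j hk.symm _ _ _ hrel).2.1
  · push Not at hA
    obtain ⟨k, k', ik, ik', kk'⟩ := third i
    rw [sum3 (fun l => c.1 l • a (p l)) ik ik' kk', hA k ik.symm, hA k' ik'.symm, zero_smul,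
      zero_smul, add_zero, add_zero] at hrel
    by_cases hC : ∀ m, m ≠ j → c.2 m ≠ 0
    · refine R2 φ P fun m => ?_
      by_cases hm : m = j
      · rw [hm, φv]
      · exact w2 m (hC m hm)
    · push Not at hC
      obtain ⟨m, hm, hm0⟩ := hC
      obtain ⟨l, hjl, hml⟩ : ∃ l, j ≠ l ∧ m ≠ l := by
        obtain ⟨l, l', jl, jl', ll'⟩ := third j
        by_cases h : m = l
        · exact ⟨l', jl', by rw [h]; exact ll'⟩
        · exact ⟨l, jl, h⟩
      rw [sum3 (fun l => c.2 l • v (q l)) hjl hm.symm hml.symm, hm0, zero_smul, add_zero] at hrel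
      have hrel' : c.2 j • v (q j) + c.2 l • v (q l) + c.1 i • a (p i) = 0 := by
        rw [add_comm]; exact hrel
      obtain ⟨r1, r2, r3⟩ := R6 j l i hjl _ _ _ hrel'
      apply hc0
      refine Prod.ext (funext fun t => ?_) (funext fun t => ?_)
      · by_cases ht : t = i
        · rw [ht]; exact r3
        · exact hA t ht
      · by_cases ht : t = j
        · rw [ht]; exact r1
        · by_cases ht2 : t = l
          · rw [ht2]; exact r2
          · have : t = m := by omega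
            rw [this]; exact hm0

end Pool.Agent.V11317.Prim
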