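import Pool.Agent.V11317.Prim.Pair
import Pool.Agent.V11317.Prim.K33

set_option autoImplicit false

/-!
# A cross system has at most 175 members
-/

namespace Pool.Agent.V11317.Prim

open Module Set

variable {V : Type*} [AddCommGroup V] [Module ℝ V]
variable {ι : Type*} {K : Set V} {e : V →ₗ[ℝ] ℝ} {a v : ι → V}

theorem LI3.swap12 {x y z : V} (h : LI3 x y z) : LI3 y x z := by
  intro α β γ h1
  obtain ⟨p, q, r⟩ := h β α γ (by rw [add_comm (β • x)]; exact h1)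
  exact ⟨q, p, r⟩

theorem nc3 {c : ℕ} {B : Fin 3 → Set ι} (hB : ∀ i, (B i).ncard ≤ c) :
    (⋃ i, B i).ncard ≤ 3 * c := by
  have h : (⋃ i, B i) = B 0 ∪ B 1 ∪ B 2 := by
    ext x
    simp only [Set.mem_iUnion, Set.mem_union]
    constructor
    · rintro ⟨i, hi⟩
      fin_cases i
      · exact Or.inl (Or.inl hi)
      · exact Or.inl (Or.inr hi)
      · exact Or.inr hi
    · rintro ((h | h) | h)
      · exact ⟨0, h⟩
      · exact ⟨1, h⟩
      · exact ⟨2, h⟩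
  rw [h]
  have h1 := Set.ncard_union_le (B 0 ∪ B 1) (B 2)
  have h2 := Set.ncard_union_le (B 0) (B 1)
  have h3 := hB 0
  have h4 := hB 1
  have h5 := hB 2
  omega

theorem exists_notMem [Fintype ι] {B : Set ι} (h : B.ncard < Fintype.card ι) : ∃ m, m ∉ B := by
  by_contra hcon
  push Not at hcon
  have : B = Set.univ := Set.eq_univ_of_forall hcon
  rw [this, Set.ncard_univ, Nat.card_eq_fintype_card] at h
  exact lt_irrefl _ h

/-- The points on a line. -/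
def Ln (a : ι → V) (x y : V) : Set ι := {m | ∃ s t : ℝ, a m = s • x + t • y}

theorem Sys.line (S : Sys K e a v) [Fintype ι] (x y : V) : (Ln a x y).ncard ≤ 2 := by
  classical
  by_contra hcon
  push Not at hcon
  obtain ⟨i, hi, j, hj, k, hk, hij, hik, hjk⟩ := (Set.two_lt_ncard (Set.toFinite _)).1 hcon
  obtain ⟨s1, t1, h1⟩ := hi
  obtain ⟨s2, t2, h2⟩ := hj
  obtain ⟨s3, t3, h3⟩ := hk
  have r : (s2 * t3 - s3 * t2) • a i + (s3 * t1 - s1 * t3) • a j +
      (s1 * t2 - s2 * t1) • a k = 0 := by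
    rw [h1, h2, h3]
    module
  obtain ⟨_, _, hC⟩ := S.triple hij hik hjk r
  have r1 : t2 • a i + (-t1) • a j = 0 := by
    have : t2 • a i + (-t1) • a j = (s1 * t2 - s2 * t1) • x := by
      rw [h1, h2]; module
    rw [this, hC, zero_smul]
  have r2 : s2 • a i + (-s1) • a j = 0 := by
    have : s2 • a i + (-s1) • a j = (-(s1 * t2 - s2 * t1)) • y := by
      rw [h1, h2]; module
    rw [this, hC, neg_zero, zero_smul]
  have e1 := S.pair hij r1
  have e2 := S.pair hij r2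
  have ht : t1 = 0 := by linarith [e1.2]
  have hs : s1 = 0 := by linarith [e2.2]
  have h4 := S.one _ (S.ha i)
  rw [h1, hs, ht] at h4
  simp at h4

theorem Sys.pairLI (S : Sys K e a v) {i k : ι} (hik : i ≠ k) {w : V}
    (hw : ¬ ∃ s t : ℝ, w = s • a i + t • a k) : LI3 (a i) (a k) w := by
  intro α β γ h
  have hγ : γ = 0 := by
    by_contra hγ
    apply hw
    refine ⟨-α / γ, -β / γ, ?_⟩
    have h1 : w = γ⁻¹ • (γ • w) := by rw [smul_smul, inv_mul_cancel₀ hγ, one_smul]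
    have h2 : γ • w = -(α • a i + β • a k) := by
      rw [eq_neg_iff_add_eq_zero, add_comm]; exact h
    rw [h1, h2]
    module
  rw [hγ, zero_smul, add_zero] at h
  obtain ⟨h1, h2⟩ := S.pair hik h
  exact ⟨h1, h2, hγ⟩

/-- The points `v m` in a common supporting hyperplane with three given points. -/
def Q (K : Set V) (v : ι → V) (x y z : V) : Set ι :=
  {m | ∃ φ : V →ₗ[ℝ] ℝ, Pos K φ ∧ φ x = 0 ∧ φ y = 0 ∧ φ z = 0 ∧ φ (v m) = 0}

theorem Sys.Qcard (S : Sys K e a v) [Fintype ι] {x y z : V} (h : LI3 x y z) :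
    (Q K a x y z).ncard ≤ 7 := by
  by_cases h0 : (Q K a x y z).Nonempty
  · obtain ⟨i, φ, P, px, py, pz, _⟩ := h0
    have hs : Q K a x y z ⊆ {m : ι | φ (a m) = 0} := by
      rintro m ⟨ψ, P', qx, qy, qz, qm⟩
      by_contra hm
      exact P'.1 (vanish S.dim h px py pz hm qx qy qz qm)
    have h1 := Set.ncard_le_ncard hs (Set.toFinite _)
    have h2 := S.plane P
    omega
  · rw [Set.not_nonempty_iff_eq_empty] at h0
    rw [h0, Set.ncard_empty]
    omega

theorem Sys.bound (S : Sys K e a v) [Fintype ι] : Fintype.card ι ≤ 175 := by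
  classical
  by_contra hcon
  push Not at hcon
  obtain ⟨i1, i2, h12⟩ := Fintype.exists_pair_of_one_lt_card (show 1 < Fintype.card ι by omega)
  obtain ⟨i3, hi3⟩ : ∃ i3, i3 ∉ (({i1} ∪ {i2} : Set ι) ∪ {m : ι | ∃ ψ : V →ₗ[ℝ] ℝ, Pos K ψ ∧
      ψ (a i1) = 0 ∧ ψ (a i2) = 0 ∧ ψ (a m) = 0}) := by
    apply exists_notMem
    have h1 := Set.ncard_union_le ({i1} ∪ {i2} : Set ι) {m : ι | ∃ ψ : V →ₗ[ℝ] ℝ, Pos K ψ ∧
      ψ (a i1) = 0 ∧ ψ (a i2) = 0 ∧ ψ (a m) = 0}
    have h2 := Set.ncard_union_le {i1} {i2}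
    rw [Set.ncard_singleton, Set.ncard_singleton] at h2
    have h3 := S.cofpair h12
    omega
  rw [Set.mem_union, Set.mem_union, Set.mem_singleton_iff, Set.mem_singleton_iff] at hi3
  push Not at hi3
  obtain ⟨⟨h31, h32⟩, h3c⟩ := hi3
  set T : Fin 3 → ι := ![i1, i2, i3] with hT
  have hTinj : ∀ i k, i ≠ k → T i ≠ T k := by
    intro i k hik
    fin_cases i <;> fin_cases k <;>
      first
      | exact absurd rfl hik
      | exact h12
      | exact h12.symm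
      | exact h31
      | exact h31.symm
      | exact h32
      | exact h32.symm
  have R1 : ∀ φ : V →ₗ[ℝ] ℝ, Pos K φ → (∀ i, φ (a (T i)) = 0) → False := by
    intro φ P h
    exact h3c ⟨φ, P, h 0, h 1, h 2⟩
  -- bad sets
  set B0 : Set ι := ⋃ i, {T i} with hB0
  have B0c : B0.ncard ≤ 3 := by
    have := nc3 (c := 1) (B := fun i => ({T i} : Set ι)) (fun i => by rw [Set.ncard_singleton])
    omega
  set B1 : Set ι := ⋃ i, ⋃ k, Ln v (a (T i)) (a (T k)) with hB1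
  have B1c : B1.ncard ≤ 18 := by
    have := nc3 (c := 6) (B := fun i => ⋃ k, Ln v (a (T i)) (a (T k)))
      (fun i => nc3 (c := 2) fun k => S.swap.line _ _)
    omega
  have LA : ∀ x, x ∉ B1 → ∀ i k, i ≠ k → LI3 (a (T i)) (a (T k)) (v x) := by
    intro x hx i k hik
    refine S.pairLI (hTinj i k hik) ?_
    intro hc
    exact hx (Set.mem_iUnion.2 ⟨i, Set.mem_iUnion.2 ⟨k, hc⟩⟩)
  let B2 : ι → Set ι := fun x => ⋃ i, Ln v (a (T i)) (v x)
  have B2c : ∀ x, (B2 x).ncard ≤ 6 := fun x => by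
    have := nc3 (c := 2) (B := fun i => Ln v (a (T i)) (v x)) (fun i => S.swap.line _ _)
    omega
  let B3 : ι → Set ι := fun x => ⋃ i, ⋃ k, {m | i ≠ k ∧ m ∈ Q K v (a (T i)) (a (T k)) (v x)}
  have B3c : ∀ x, x ∉ B1 → (B3 x).ncard ≤ 63 := by
    intro x hx
    have := nc3 (c := 21) (B := fun i => ⋃ k, {m | i ≠ k ∧ m ∈ Q K v (a (T i)) (a (T k)) (v x)})
      (fun i => nc3 (c := 7) fun k => by
        by_cases hik : i = k
        · have : {m | i ≠ k ∧ m ∈ Q K v (a (T i)) (a (T k)) (v x)} = ∅ := by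
            ext m; simp [hik]
          rw [this, Set.ncard_empty]; omega
        · have h1 : {m | i ≠ k ∧ m ∈ Q K v (a (T i)) (a (T k)) (v x)} ⊆
            Q K v (a (T i)) (a (T k)) (v x) := fun m hm => hm.2
          have h2 := Set.ncard_le_ncard h1 (Set.toFinite _)
          have h3 := S.swap.Qcard (LA x hx i k hik)
          omega)
    omega
  -- good pairs
  have good : ∀ x y, x ∉ B1 → y ∉ B1 → y ∉ B2 x → y ∉ B3 x →
      (∀ i k, i ≠ k → ∀ φ : V →ₗ[ℝ] ℝ, Pos K φ → φ (a (T i)) = 0 → φ (a (T k)) = 0 →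
        φ (v x) = 0 → φ (v y) = 0 → False) ∧ ∀ i, LI3 (v x) (v y) (a (T i)) := by
    intro x y hx hy h2 h3
    refine ⟨fun i k hik φ P p1 p2 p3 p4 => ?_, fun i => ?_⟩
    · exact h3 (Set.mem_iUnion.2 ⟨i, Set.mem_iUnion.2 ⟨k, hik, φ, P, p1, p2, p3, p4⟩⟩)
    · intro α β γ h
      have hβ : β = 0 := by
        by_contra hβ
        apply h2
        refine Set.mem_iUnion.2 ⟨i, -γ / β, -α / β, ?_⟩
        have h1 : v y = β⁻¹ • (β • v y) := by rw [smul_smul, inv_mul_cancel₀ hβ, one_smul]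
        have h4 : β • v y = -(α • v x + γ • a (T i)) := by
          rw [eq_neg_iff_add_eq_zero]
          rw [← h]; abel
        rw [h1, h4]
        module
      rw [hβ, zero_smul, add_zero] at h
      obtain ⟨k, _, hk, _⟩ := third i
      have h5 : γ • a (T i) + (0 : ℝ) • a (T k) + α • v x = 0 := by
        rw [zero_smul, add_zero, add_comm]; exact h
      obtain ⟨g1, _, g3⟩ := LA x hx i k hk _ _ _ h5
      exact ⟨g3, hβ, g1⟩
  obtain ⟨x, hx⟩ : ∃ x, x ∉ B0 ∪ B1 := by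
    apply exists_notMem
    have := Set.ncard_union_le B0 B1
    omega
  rw [Set.mem_union] at hx
  push Not at hx
  obtain ⟨y, hy⟩ : ∃ y, y ∉ (B0 ∪ B1) ∪ (({x} ∪ B2 x) ∪ B3 x) := by
    apply exists_notMem
    have h1 := Set.ncard_union_le B0 B1
    have h2 := Set.ncard_union_le (B0 ∪ B1) (({x} ∪ B2 x) ∪ B3 x)
    have h3 := Set.ncard_union_le ({x} ∪ B2 x) (B3 x)
    have h4 := Set.ncard_union_le {x} (B2 x)
    rw [Set.ncard_singleton] at h4
    have h5 := B2c x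
    have h6 := B3c x hx.2
    omega
  simp only [Set.mem_union, Set.mem_singleton_iff, not_or] at hy
  obtain ⟨⟨y0, y1⟩, ⟨yx, y2⟩, y3⟩ := hy
  have gxy := good x y hx.2 y1 y2 y3
  obtain ⟨z, hz⟩ : ∃ z, z ∉ ((B0 ∪ B1) ∪ (({x} ∪ B2 x) ∪ B3 x)) ∪ ((({y} ∪ B2 y) ∪ B3 y) ∪
      {m : ι | ∃ ψ : V →ₗ[ℝ] ℝ, Pos K ψ ∧ ψ (v x) = 0 ∧ ψ (v y) = 0 ∧ ψ (v m) = 0}) := by
    apply exists_notMem
    have h1 := Set.ncard_union_le B0 B1
    have h2 := Set.ncard_union_le (B0 ∪ B1) (({x} ∪ B2 x) ∪ B3 x)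
    have h3 := Set.ncard_union_le ({x} ∪ B2 x) (B3 x)
    have h4 := Set.ncard_union_le {x} (B2 x)
    rw [Set.ncard_singleton] at h4
    have h5 := B2c x
    have h6 := B3c x hx.2
    have k3 := Set.ncard_union_le ({y} ∪ B2 y) (B3 y)
    have k4 := Set.ncard_union_le {y} (B2 y)
    rw [Set.ncard_singleton] at k4
    have k5 := B2c y
    have k6 := B3c y y1
    have k7 := S.swap.cofpair (show x ≠ y from fun h => yx h.symm)
    have k8 := Set.ncard_union_le (({y} ∪ B2 y) ∪ B3 y)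
      {m : ι | ∃ ψ : V →ₗ[ℝ] ℝ, Pos K ψ ∧ ψ (v x) = 0 ∧ ψ (v y) = 0 ∧ ψ (v m) = 0}
    have k9 := Set.ncard_union_le ((B0 ∪ B1) ∪ (({x} ∪ B2 x) ∪ B3 x)) ((({y} ∪ B2 y) ∪ B3 y) ∪
      {m : ι | ∃ ψ : V →ₗ[ℝ] ℝ, Pos K ψ ∧ ψ (v x) = 0 ∧ ψ (v y) = 0 ∧ ψ (v m) = 0})
    omega
  rw [Set.mem_union, Set.mem_union, Set.mem_union, Set.mem_union, Set.mem_union, Set.mem_union,
    Set.mem_union, Set.mem_union, Set.mem_singleton_iff, Set.mem_singleton_iff] at hz
  push Not at hz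
  obtain ⟨⟨⟨z0, z1⟩, ⟨zx, z2⟩, z3⟩, ⟨⟨zy, w2⟩, w3⟩, zc⟩ := hz
  have gxz := good x z hx.2 z1 z2 z3
  have gyz := good y z y1 z1 w2 w3
  have nT : ∀ w, w ∉ B0 → ∀ i, T i ≠ w := by
    rintro w hw i rfl
    exact hw (Set.mem_iUnion.2 ⟨i, rfl⟩)
  refine S.k33 (p := T) (q := ![x, y, z]) ?_ R1 ?_ ?_ ?_ ?_
  · intro i j
    fin_cases j
    · exact nT x hx.1 i
    · exact nT y y0 i
    · exact nT z z0 i
  · intro φ P h
    exact zc ⟨φ, P, h 0, h 1, h 2⟩
  · intro i k hik j l hjl φ P p1 p2 p3 p4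
    fin_cases j <;> fin_cases l
    · exact hjl rfl
    · exact gxy.1 i k hik φ P p1 p2 p3 p4
    · exact gxz.1 i k hik φ P p1 p2 p3 p4
    · exact gxy.1 i k hik φ P p1 p2 p4 p3
    · exact hjl rfl
    · exact gyz.1 i k hik φ P p1 p2 p3 p4
    · exact gxz.1 i k hik φ P p1 p2 p4 p3
    · exact gyz.1 i k hik φ P p1 p2 p4 p3
    · exact hjl rfl
  · intro i k j hik
    fin_cases j
    · exact LA x hx.2 i k hik
    · exact LA y y1 i k hik
    · exact LA z z1 i k hik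
  · intro j l i hjl
    fin_cases j <;> fin_cases l
    · exact absurd rfl hjl
    · exact gxy.2 i
    · exact gxz.2 i
    · exact (gxy.2 i).swap12
    · exact absurd rfl hjl
    · exact gyz.2 i
    · exact (gxz.2 i).swap12
    · exact (gyz.2 i).swap12
    · exact absurd rfl hjl

end Pool.Agent.V11317.Prim
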