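import Pool.Agent.V11317.Prim.Plane

set_option autoImplicit false

/-!
# At most fourteen points are on a common supporting hyperplane with two given ones
-/

namespace Pool.Agent.V11317.Prim

open Module Set

variable {V : Type*} [AddCommGroup V] [Module ℝ V]
variable {ι : Type*} {K : Set V} {e : V →ₗ[ℝ] ℝ} {a v : ι → V}

theorem opp {s t x y : ℝ} (hx : 0 < x) (hy : 0 < y) (h : s * x + t * y = 0) :
    (0 < s → t < 0) ∧ (s < 0 → 0 < t) ∧ (s = 0 → t = 0) := by
  refine ⟨fun hs => ?_, fun hs => ?_, fun hs => ?_⟩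
  · by_contra ht
    push Not at ht
    have := mul_pos hs hx
    have := mul_nonneg ht hy.le
    linarith
  · by_contra ht
    push Not at ht
    have := mul_neg_of_neg_of_pos hs hx
    have := mul_nonpos_of_nonpos_of_nonneg ht hy.le
    linarith
  · rw [hs, zero_mul, zero_add] at h
    exact (mul_eq_zero.1 h).resolve_right hy.ne'

theorem Sys.cofpair (S : Sys K e a v) [Fintype ι] {p q : ι} (hpq : p ≠ q) :
    {m : ι | ∃ ψ : V →ₗ[ℝ] ℝ, Pos K ψ ∧ ψ (a p) = 0 ∧ ψ (a q) = 0 ∧ ψ (a m) = 0}.ncard ≤ 14 := by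
  classical
  set M := {m : ι | ∃ ψ : V →ₗ[ℝ] ℝ, Pos K ψ ∧ ψ (a p) = 0 ∧ ψ (a q) = 0 ∧ ψ (a m) = 0} with hM
  by_cases h1 : ∀ m ∈ M, m = p ∨ m = q
  · have h2 : M ⊆ {p, q} := fun m hm => by simpa using h1 m hm
    have h3 := Set.ncard_le_ncard h2 (Set.toFinite _)
    have h4 := Set.ncard_insert_le p {q}
    rw [Set.ncard_singleton] at h4
    omega
  push Not at h1
  obtain ⟨i, hiM, hip, hiq⟩ := h1
  obtain ⟨ψi, Pi, pi, qi, ii⟩ := hiM
  by_cases h2 : ∀ m ∈ M, ψi (a m) = 0
  · have h3 := Set.ncard_le_ncard (show M ⊆ {m : ι | ψi (a m) = 0} from h2) (Set.toFinite _)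
    have h4 := S.plane Pi
    omega
  push Not at h2
  obtain ⟨j, hjM, hij0⟩ := h2
  obtain ⟨ψj, Pj, pj, qj, jj⟩ := hjM
  have hjp : j ≠ p := by rintro rfl; exact hij0 pi
  have hjq : j ≠ q := by rintro rfl; exact hij0 qi
  have hji : j ≠ i := by rintro rfl; exact hij0 ii
  have key : M ⊆ {m : ι | ψi (a m) = 0} ∪ {m : ι | ψj (a m) = 0} := by
    intro k hk
    by_contra hcon
    rw [Set.mem_union, Set.mem_setOf_eq, Set.mem_setOf_eq] at hcon
    push Not at hcon
    obtain ⟨hik0, hjk0⟩ := hcon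
    obtain ⟨ψk, Pk, pk, qk, kk⟩ := hk
    have hkp : k ≠ p := by rintro rfl; exact hik0 pi
    have hkq : k ≠ q := by rintro rfl; exact hik0 qi
    have hki : k ≠ i := by rintro rfl; exact hik0 ii
    have hkj : k ≠ j := by rintro rfl; exact hjk0 jj
    have li_i : LI3 (a p) (a q) (a i) := S.li3 hpq hip.symm hiq.symm
    have li_j : LI3 (a p) (a q) (a j) := S.li3 hpq hjp.symm hjq.symm
    have n1 : ψj (a i) ≠ 0 := fun h0 => Pj.1 (vanish S.dim li_i pi qi ii hij0 pj qj h0 jj)
    have n2 : ψk (a i) ≠ 0 := fun h0 => Pk.1 (vanish S.dim li_i pi qi ii hik0 pk qk h0 kk)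
    have n3 : ψk (a j) ≠ 0 := fun h0 => Pk.1 (vanish S.dim li_j pj qj jj hjk0 pk qk h0 kk)
    have pos : ∀ {ψ : V →ₗ[ℝ] ℝ}, Pos K ψ → ∀ m, ψ (a m) ≠ 0 → 0 < ψ (a m) :=
      fun {ψ} hψ m hm => lt_of_le_of_ne (hψ.2 _ (S.ha m)) hm.symm
    have dep : ¬ LinearIndependent ℝ ![a p, a q, a i, a j, a k] := by
      intro hli
      haveI : FiniteDimensional ℝ V := FiniteDimensional.of_finrank_pos (by rw [S.dim]; norm_num)
      have := hli.fintype_card_le_finrank
      rw [S.dim] at this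
      simp at this
    rw [Fintype.not_linearIndependent_iff] at dep
    obtain ⟨g, hg, m, hm⟩ := dep
    rw [Fin.sum_univ_five] at hg
    have hg' : g 0 • a p + g 1 • a q + g 2 • a i + g 3 • a j + g 4 • a k = 0 := by
      simpa using hg
    have e1 : g 3 * ψi (a j) + g 4 * ψi (a k) = 0 := by
      have := congrArg ψi hg'
      simpa [pi, qi, ii] using this
    have e2 : g 2 * ψj (a i) + g 4 * ψj (a k) = 0 := by
      have := congrArg ψj hg'
      simpa [pj, qj, jj] using this
    have e3 : g 2 * ψk (a i) + g 3 * ψk (a j) = 0 := by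
      have := congrArg ψk hg'
      simpa [pk, qk, kk] using this
    have o1 := opp (pos Pi j hij0) (pos Pi k hik0) e1
    have o2 := opp (pos Pj i n1) (pos Pj k hjk0) e2
    have o3 := opp (pos Pk i n2) (pos Pk j n3) e3
    have g2 : g 2 = 0 := by
      rcases lt_trichotomy (g 2) 0 with h | h | h
      · have a1 := o2.2.1 h
        have a2 := o3.2.1 h
        have a3 := o1.1 a2
        linarith
      · exact h
      · have a1 := o2.1 h
        have a2 := o3.1 h
        have a3 := o1.2.1 a2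
        linarith
    have g4 := o2.2.2 g2
    have g3 := o3.2.2 g2
    rw [g2, g3, g4, zero_smul, zero_smul, zero_smul, add_zero, add_zero, add_zero] at hg'
    have := S.pair hpq hg'
    apply hm
    fin_cases m
    · exact this.1
    · exact this.2
    · exact g2
    · exact g3
    · exact g4
  have h3 := Set.ncard_le_ncard key (Set.toFinite _)
  have h4 := Set.ncard_union_le {m : ι | ψi (a m) = 0} {m : ι | ψj (a m) = 0}
  have h5 := S.plane Pi
  have h6 := S.plane Pj
  omega

end Pool.Agent.V11317.Prim
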