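import Pool.Agent.V11317.Prim.Sys

set_option autoImplicit false

/-!
# At most seven of the points on a supporting hyperplane
-/

namespace Pool.Agent.V11317.Prim

open Module Set

variable {V : Type*} [AddCommGroup V] [Module ℝ V]
variable {ι : Type*} {K : Set V} {e : V →ₗ[ℝ] ℝ} {a v : ι → V}

theorem both_zero {s t x y : ℝ} (hx : 0 ≤ x) (hy : 0 ≤ y) (h : s * x + t * y = 0)
    (hst : (0 < s ∧ 0 < t) ∨ (s < 0 ∧ t < 0)) : x = 0 ∧ y = 0 := by
  rcases hst with ⟨hs, ht⟩ | ⟨hs, ht⟩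
  · have h1 : 0 ≤ s * x := mul_nonneg hs.le hx
    have h2 : 0 ≤ t * y := mul_nonneg ht.le hy
    have h3 : s * x = 0 := by linarith
    have h4 : t * y = 0 := by linarith
    exact ⟨(mul_eq_zero.1 h3).resolve_left hs.ne', (mul_eq_zero.1 h4).resolve_left ht.ne'⟩
  · have h1 : s * x ≤ 0 := mul_nonpos_of_nonpos_of_nonneg hs.le hx
    have h2 : t * y ≤ 0 := mul_nonpos_of_nonpos_of_nonneg ht.le hy
    have h3 : s * x = 0 := by linarith
    have h4 : t * y = 0 := by linarith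
    exact ⟨(mul_eq_zero.1 h3).resolve_left hs.ne, (mul_eq_zero.1 h4).resolve_left ht.ne⟩

theorem Sys.vpos (S : Sys K e a v) {h : V →ₗ[ℝ] ℝ} (hh : Pos K h) {p : ι} (hp : h (a p) = 0) :
    0 < h (v p) :=
  lt_of_le_of_ne (hh.2 _ (S.hv p)) fun h0 => S.ncof p h hh hp h0.symm

/-- The point at which the line through `v p` and `v q` meets the hyperplane `h = 0`. -/
def qh (h : V →ₗ[ℝ] ℝ) (v : ι → V) (p q : ι) : V := h (v q) • v p - h (v p) • v q

theorem h_qh (h : V →ₗ[ℝ] ℝ) (p q : ι) : h (qh h v p q) = 0 := by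
  unfold qh
  rw [map_sub, map_smul, map_smul, smul_eq_mul, smul_eq_mul]
  ring

theorem Sys.G (S : Sys K e a v) {h : V →ₗ[ℝ] ℝ} (hh : Pos K h) {p q i : ι}
    (hip : i ≠ p) (hiq : i ≠ q) (hp : h (a p) = 0) (hi : h (a i) = 0) (hq : h (a q) = 0) :
    ∃ G : V →ₗ[ℝ] ℝ, (∀ x ∈ K, 0 ≤ G x) ∧ G (a i) = 0 ∧ G (qh h v p q) = 0 ∧
      ∀ j k, i ≠ j → i ≠ k → j ≠ k → h (a j) = 0 → h (a k) = 0 → G (a j) = 0 → G (a k) = 0 →
        False := by
  obtain ⟨φ₁, P1, a1, v1⟩ := S.cof i p hip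
  obtain ⟨φ₂, P2, a2, v2⟩ := S.cof i q hiq
  have hvp := S.vpos hh hp
  have hvq := S.vpos hh hq
  have n1 := P1.2 _ (S.hv q)
  have n2 := P2.2 _ (S.hv p)
  rcases n1.eq_or_lt with z1 | z1
  · refine ⟨φ₁, P1.2, a1, ?_, ?_⟩
    · unfold qh
      rw [map_sub, map_smul, map_smul, v1, ← z1]; simp
    · intro j k hij hik hjk hj hk gj gk
      exact P1.1 (vanish S.dim (S.li3 hij hik hjk) hi hj hk hvp.ne' a1 gj gk v1)
  rcases n2.eq_or_lt with z2 | z2
  · refine ⟨φ₂, P2.2, a2, ?_, ?_⟩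
    · unfold qh
      rw [map_sub, map_smul, map_smul, v2, ← z2]; simp
    · intro j k hij hik hjk hj hk gj gk
      exact P2.1 (vanish S.dim (S.li3 hij hik hjk) hi hj hk hvq.ne' a2 gj gk v2)
  · set α := h (v q) * φ₂ (v p) with hα
    set β := h (v p) * φ₁ (v q) with hβ
    have α0 : 0 < α := mul_pos hvq z2
    have β0 : 0 < β := mul_pos hvp z1
    refine ⟨α • φ₁ + β • φ₂, ?_, ?_, ?_, ?_⟩
    · intro x hx
      simp only [LinearMap.add_apply, LinearMap.smul_apply, smul_eq_mul]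
      exact add_nonneg (mul_nonneg α0.le (P1.2 x hx)) (mul_nonneg β0.le (P2.2 x hx))
    · simp [a1, a2]
    · unfold qh
      simp only [LinearMap.add_apply, LinearMap.smul_apply, smul_eq_mul, map_sub, map_smul, v1, v2]
      rw [hα, hβ]; ring
    · intro j k hij hik hjk hj hk gj gk
      simp only [LinearMap.add_apply, LinearMap.smul_apply, smul_eq_mul] at gj gk
      have cj := both_zero (P1.2 _ (S.ha j)) (P2.2 _ (S.ha j)) gj (Or.inl ⟨α0, β0⟩)
      have ck := both_zero (P1.2 _ (S.ha k)) (P2.2 _ (S.ha k)) gk (Or.inl ⟨α0, β0⟩)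
      exact P1.1 (vanish S.dim (S.li3 hij hik hjk) hi hj hk hvp.ne' a1 cj.1 ck.1 v1)

/-- The vector `w` is on the line through two of the points. -/
def R (a : ι → V) (w : V) (i j : ι) : Prop := ∃ s t : ℝ, w = s • a i + t • a j

theorem Sys.nosame (S : Sys K e a v) {h : V →ₗ[ℝ] ℝ} (hh : Pos K h) {p q i j k : ι}
    (hip : i ≠ p) (hiq : i ≠ q) (hp : h (a p) = 0) (hq : h (a q) = 0)
    (hij : i ≠ j) (hik : i ≠ k) (hjk : j ≠ k)
    (hi : h (a i) = 0) (hj : h (a j) = 0) (hk : h (a k) = 0) {α β γ : ℝ}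
    (hc : qh h v p q = α • a i + β • a j + γ • a k) :
    ¬ ((0 < β ∧ 0 < γ) ∨ (β < 0 ∧ γ < 0)) := by
  intro hst
  obtain ⟨G, G1, G2, G3, G4⟩ := S.G hh hip hiq hp hi hq
  rw [hc, map_add, map_add, map_smul, map_smul, map_smul, G2, smul_zero, zero_add,
    smul_eq_mul, smul_eq_mul] at G3
  have := both_zero (G1 _ (S.ha j)) (G1 _ (S.ha k)) G3 hst
  exact G4 j k hij hik hjk hj hk this.1 this.2

theorem Sys.two (S : Sys K e a v) {h : V →ₗ[ℝ] ℝ} (hh : Pos K h) {p q i j k : ι}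
    (hip : i ≠ p) (hiq : i ≠ q) (hjp : j ≠ p) (hjq : j ≠ q) (hkp : k ≠ p) (hkq : k ≠ q)
    (hp : h (a p) = 0) (hq : h (a q) = 0)
    (hij : i ≠ j) (hik : i ≠ k) (hjk : j ≠ k)
    (hi : h (a i) = 0) (hj : h (a j) = 0) (hk : h (a k) = 0) :
    R a (qh h v p q) i j ∨ R a (qh h v p q) i k ∨ R a (qh h v p q) j k := by
  obtain ⟨α, β, γ, hc⟩ := exists_comb S.dim (S.li3 hij hik hjk) hh.1 hi hj hk
    (h_qh (v := v) h p q)
  have c1 := S.nosame hh hip hiq hp hq hij hik hjk hi hj hk hc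
  have hc2 : qh h v p q = β • a j + α • a i + γ • a k := by
    rw [hc, add_comm (α • a i)]
  have c2 := S.nosame hh hjp hjq hp hq hij.symm hjk hik hj hi hk hc2
  have hc3 : qh h v p q = γ • a k + α • a i + β • a j := by
    rw [hc]; abel
  have c3 := S.nosame hh hkp hkq hp hq hik.symm hjk.symm hij hk hi hj hc3
  rcases eq_or_ne α 0 with h0 | h0
  · right; right
    exact ⟨β, γ, by rw [hc, h0, zero_smul, zero_add]⟩
  rcases eq_or_ne β 0 with h1 | h1
  · right; left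
    exact ⟨α, γ, by rw [hc, h1, zero_smul, add_zero]⟩
  rcases eq_or_ne γ 0 with h2 | h2
  · left
    exact ⟨α, β, by rw [hc, h2, zero_smul, add_zero]⟩
  · exfalso
    rcases lt_or_gt_of_ne h0 with x | x <;> rcases lt_or_gt_of_ne h1 with y | y <;>
      rcases lt_or_gt_of_ne h2 with z | z
    · exact c1 (Or.inr ⟨y, z⟩)
    · exact c3 (Or.inr ⟨x, y⟩)
    · exact c2 (Or.inr ⟨x, z⟩)
    · exact c1 (Or.inl ⟨y, z⟩)
    · exact c1 (Or.inr ⟨y, z⟩)
    · exact c2 (Or.inl ⟨x, z⟩)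
    · exact c3 (Or.inl ⟨x, y⟩)
    · exact c1 (Or.inl ⟨y, z⟩)

theorem R.symm' {w : V} {i j : ι} (h : R a w i j) : R a w j i := by
  obtain ⟨s, t, h⟩ := h
  exact ⟨t, s, by rw [h, add_comm]⟩

/-- Two lines through `w` meet in `w`. -/
theorem Sys.share (S : Sys K e a v) {w : V} {x y z : ι} (hxy : x ≠ y) (hxz : x ≠ z)
    (hyz : y ≠ z) (h1 : R a w x y) (h2 : R a w x z) : ∃ s : ℝ, w = s • a x := by
  obtain ⟨s, t, h1⟩ := h1
  obtain ⟨s', t', h2⟩ := h2
  have h3 : (s - s') • a x + t • a y + (-t') • a z = 0 := by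
    have : s • a x + t • a y = s' • a x + t' • a z := by rw [← h1, ← h2]
    rw [sub_smul, neg_smul, sub_add_eq_add_sub, this]
    abel
  obtain ⟨_, ht, _⟩ := S.triple hxy hxz hyz h3
  exact ⟨s, by rw [h1, ht, zero_smul, add_zero]⟩

theorem Sys.qh_ne (S : Sys K e a v) {h : V →ₗ[ℝ] ℝ} (hh : Pos K h) {p q : ι} (hpq : p ≠ q)
    (hq : h (a q) = 0) : qh h v p q ≠ 0 := by
  intro h0
  unfold qh at h0
  have h1 : h (v q) • v p + (-(h (v p))) • v q = 0 := by
    rw [neg_smul, ← sub_eq_add_neg]; exact h0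
  have := (S.swap.pair hpq h1).1
  exact (S.vpos hh hq).ne' this

theorem Sys.plane (S : Sys K e a v) [Fintype ι] {h : V →ₗ[ℝ] ℝ} (hh : Pos K h) :
    {m : ι | h (a m) = 0}.ncard ≤ 7 := by
  classical
  by_contra hcon
  push Not at hcon
  set I : Finset ι := Finset.univ.filter (fun m => h (a m) = 0) with hI
  have hIc : {m : ι | h (a m) = 0}.ncard = I.card := by
    rw [← Set.ncard_coe_finset]; congr 1; ext m; simp [hI]
  rw [hIc] at hcon
  have hmem : ∀ m, m ∈ I ↔ h (a m) = 0 := fun m => by simp [hI]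
  obtain ⟨p, hp, q, hq, hpq⟩ := Finset.one_lt_card.1 (show 1 < I.card by omega)
  rw [hmem] at hp hq
  set w := qh h v p q with hw
  have hw0 : w ≠ 0 := S.qh_ne hh hpq hq
  set J : Finset ι := (I.erase p).erase q with hJ
  have hJc : 6 ≤ J.card := by
    rw [hJ, Finset.card_erase_of_mem (Finset.mem_erase.2 ⟨hpq.symm, (hmem q).2 hq⟩),
      Finset.card_erase_of_mem ((hmem p).2 hp)]
    omega
  have hJm : ∀ m ∈ J, m ≠ p ∧ m ≠ q ∧ h (a m) = 0 := by
    intro m hm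
    rw [hJ, Finset.mem_erase, Finset.mem_erase, hmem] at hm
    exact ⟨hm.2.1, hm.1, hm.2.2⟩
  set L : Finset ι := J.filter (fun x => ¬ ∃ s : ℝ, w = s • a x) with hL
  have hLc : 5 ≤ L.card := by
    have h1 : (J.filter (fun x => ∃ s : ℝ, w = s • a x)).card ≤ 1 := by
      rw [Finset.card_le_one]
      intro x hx y hy
      rw [Finset.mem_filter] at hx hy
      by_contra hxy
      obtain ⟨s, hs⟩ := hx.2
      obtain ⟨t, ht⟩ := hy.2
      have h3 : s • a x + (-t) • a y = 0 := by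
        rw [neg_smul, ← hs, ← ht]; abel
      have := (S.pair hxy h3).1
      rw [this, zero_smul] at hs
      exact hw0 hs
    have h2 := Finset.card_filter_add_card_filter_not (s := J) (fun x => ∃ s : ℝ, w = s • a x)
    have h3 : (J.filter (fun x => ¬ ∃ s : ℝ, w = s • a x)).card = L.card := rfl
    omega
  have hLm : ∀ m ∈ L, m ≠ p ∧ m ≠ q ∧ h (a m) = 0 ∧ ¬ ∃ s : ℝ, w = s • a m := by
    intro m hm
    rw [hL, Finset.mem_filter] at hm
    exact ⟨(hJm m hm.1).1, (hJm m hm.1).2.1, (hJm m hm.1).2.2, hm.2⟩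
  obtain ⟨c, hc⟩ := Finset.card_pos.1 (show 0 < L.card by omega)
  set M : Finset ι := (L.erase c).filter (fun x => ¬ R a w c x) with hM
  have hMc : 2 < M.card := by
    have h1 : ((L.erase c).filter (fun x => R a w c x)).card ≤ 1 := by
      rw [Finset.card_le_one]
      intro x hx y hy
      rw [Finset.mem_filter, Finset.mem_erase] at hx hy
      by_contra hxy
      exact (hLm c hc).2.2.2 (S.share hx.1.1.symm hy.1.1.symm hxy hx.2 hy.2)
    have h2 := Finset.card_filter_add_card_filter_not (s := L.erase c) (fun x => R a w c x)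
    have h4 : (L.erase c).card = L.card - 1 := Finset.card_erase_of_mem hc
    have h3 : ((L.erase c).filter (fun x => ¬ R a w c x)).card = M.card := rfl
    omega
  obtain ⟨x, hx, y, hy, z, hz, hxy, hxz, hyz⟩ := Finset.two_lt_card.1 hMc
  rw [hM, Finset.mem_filter, Finset.mem_erase] at hx hy hz
  obtain ⟨x1, x2, x3, x4⟩ := hLm x hx.1.2
  obtain ⟨y1, y2, y3, y4⟩ := hLm y hy.1.2
  obtain ⟨z1, z2, z3, z4⟩ := hLm z hz.1.2
  obtain ⟨c1, c2, c3, c4⟩ := hLm c hc
  have r1 : R a w x y := by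
    rcases S.two hh c1 c2 x1 x2 y1 y2 hp hq hx.1.1.symm hy.1.1.symm hxy c3 x3 y3 with h | h | h
    · exact absurd h hx.2
    · exact absurd h hy.2
    · exact h
  have r2 : R a w x z := by
    rcases S.two hh c1 c2 x1 x2 z1 z2 hp hq hx.1.1.symm hz.1.1.symm hxz c3 x3 z3 with h | h | h
    · exact absurd h hx.2
    · exact absurd h hz.2
    · exact h
  exact x4 (S.share hxy hxz hyz r1 r2)

end Pool.Agent.V11317.Prim
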