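import Mathlib

set_option autoImplicit false

/-!
# Strict cross systems of boundary points in dimension three, linear form

`V` is a real vector space of dimension four, `K` a subset of the affine hyperplane `e = 1`.
-/

namespace Pool.Agent.V11317.Prim

open Module Set

variable {V : Type*} [AddCommGroup V] [Module ℝ V]

/-- A nonzero functional which is nonnegative on `K`. -/
def Pos (K : Set V) (φ : V →ₗ[ℝ] ℝ) : Prop := φ ≠ 0 ∧ ∀ x ∈ K, 0 ≤ φ x

/-- The points `a i` and `v j` are on a common supporting hyperplane if and only if `i ≠ j`. -/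
structure Sys {ι : Type*} (K : Set V) (e : V →ₗ[ℝ] ℝ) (a v : ι → V) : Prop where
  dim : finrank ℝ V = 4
  one : ∀ x ∈ K, e x = 1
  ha : ∀ i, a i ∈ K
  hv : ∀ i, v i ∈ K
  cof : ∀ i j, i ≠ j → ∃ φ : V →ₗ[ℝ] ℝ, Pos K φ ∧ φ (a i) = 0 ∧ φ (v j) = 0
  ncof : ∀ i, ∀ φ : V →ₗ[ℝ] ℝ, Pos K φ → φ (a i) = 0 → φ (v i) = 0 → False

variable {ι : Type*} {K : Set V} {e : V →ₗ[ℝ] ℝ} {a v : ι → V}

theorem Sys.swap (S : Sys K e a v) : Sys K e v a :=
  ⟨S.dim, S.one, S.hv, S.ha, fun i j hij => by
    obtain ⟨φ, h1, h2, h3⟩ := S.cof j i hij.symm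
    exact ⟨φ, h1, h3, h2⟩, fun i φ h1 h2 h3 => S.ncof i φ h1 h3 h2⟩

/-- No `a j` is a nonnegative combination with positive weight at another `a i`. -/
theorem Sys.mid (S : Sys K e a v) {i j k : ι} (hij : i ≠ j) {s t : ℝ} (hs : 0 < s) (ht : 0 ≤ t)
    (h : a j = s • a i + t • a k) : False := by
  obtain ⟨φ, h1, h2, h3⟩ := S.cof j i hij.symm
  have e1 : φ (a j) = s * φ (a i) + t * φ (a k) := by rw [h]; simp
  have p1 := h1.2 _ (S.ha i)
  have p2 := h1.2 _ (S.ha k)
  have p3 : φ (a i) = 0 := by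
    rw [h2] at e1
    have q1 : 0 ≤ t * φ (a k) := mul_nonneg ht p2
    have q2 : 0 ≤ s * φ (a i) := mul_nonneg hs.le p1
    have q3 : s * φ (a i) = 0 := by linarith
    rcases mul_eq_zero.1 q3 with h | h
    · exact absurd h hs.ne'
    · exact h
  exact S.ncof i φ h1 p3 h3

theorem Sys.ne (S : Sys K e a v) {i j : ι} (hij : i ≠ j) : a i ≠ a j := by
  intro h
  refine S.mid (i := i) (j := j) (k := i) hij one_pos le_rfl ?_
  rw [h]; simp

theorem Sys.pair (S : Sys K e a v) {i j : ι} (hij : i ≠ j) {α β : ℝ}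
    (h : α • a i + β • a j = 0) : α = 0 ∧ β = 0 := by
  have h1 := congrArg e h
  simp only [map_add, map_smul, S.one _ (S.ha i), S.one _ (S.ha j), smul_eq_mul, mul_one,
    map_zero] at h1
  have hb : β = -α := by linarith
  rw [hb] at h
  have h2 : α • (a i - a j) = 0 := by
    rw [smul_sub, ← h, neg_smul, sub_eq_add_neg]
  rcases smul_eq_zero.1 h2 with h3 | h3
  · exact ⟨h3, by rw [hb, h3, neg_zero]⟩
  · exact absurd (sub_eq_zero.1 h3) (S.ne hij)

theorem Sys.aux (S : Sys K e a v) {i j k : ι} (hij : i ≠ j) (hik : i ≠ k)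
    {α β γ : ℝ} (hα : 0 < α) (hβ : β ≤ 0) (hγ : γ ≤ 0)
    (h : α • a i + β • a j + γ • a k = 0) : False := by
  have h1 := congrArg e h
  simp only [map_add, map_smul, S.one _ (S.ha i), S.one _ (S.ha j), S.one _ (S.ha k),
    smul_eq_mul, mul_one, map_zero] at h1
  have h2 : a i = (-β / α) • a j + (-γ / α) • a k := by
    have h3 : α • a i = (-β) • a j + (-γ) • a k := by
      rw [neg_smul, neg_smul, ← neg_add, eq_neg_iff_add_eq_zero, ← add_assoc]
      exact h
    have h4 : a i = α⁻¹ • (α • a i) := by rw [smul_smul, inv_mul_cancel₀ hα.ne', one_smul]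
    rw [h4, h3, smul_add, smul_smul, smul_smul]
    congr 2 <;> ring
  rcases hβ.lt_or_eq with hb | hb
  · exact S.mid (i := j) (j := i) (k := k) hij.symm (div_pos (by linarith) hα)
      (div_nonneg (by linarith) hα.le) h2
  · have hg : 0 < -γ := by linarith
    refine S.mid (i := k) (j := i) (k := j) hik.symm (div_pos hg hα)
      (div_nonneg (by linarith) hα.le) (s := -γ / α) (t := -β / α) ?_
    rw [add_comm]; exact h2

theorem Sys.aux' (S : Sys K e a v) {i j k : ι} (hij : i ≠ j) (hik : i ≠ k)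
    {α β γ : ℝ} (hα : α < 0) (hβ : 0 ≤ β) (hγ : 0 ≤ γ)
    (h : α • a i + β • a j + γ • a k = 0) : False := by
  refine S.aux (α := -α) (β := -β) (γ := -γ) hij hik (by linarith) (by linarith) (by linarith) ?_
  rw [neg_smul, neg_smul, neg_smul, ← neg_add, ← neg_add, h, neg_zero]

/-- No three of the points `a i` are collinear. -/
theorem Sys.triple (S : Sys K e a v) {i j k : ι} (hij : i ≠ j) (hik : i ≠ k) (hjk : j ≠ k)
    {α β γ : ℝ} (h : α • a i + β • a j + γ • a k = 0) : α = 0 ∧ β = 0 ∧ γ = 0 := by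
  have h1 := congrArg e h
  simp only [map_add, map_smul, S.one _ (S.ha i), S.one _ (S.ha j), S.one _ (S.ha k),
    smul_eq_mul, mul_one, map_zero] at h1
  have hj : β • a j + α • a i + γ • a k = 0 := by rw [add_comm (β • a j)]; exact h
  have hk : γ • a k + α • a i + β • a j = 0 := by
    rw [add_assoc, add_comm (γ • a k)]; exact h
  have hk' := S.aux hik.symm hjk.symm (α := γ) (β := α) (γ := β)
  have hj' := S.aux hij.symm hjk (α := β) (β := α) (γ := γ)
  have hi' := S.aux hij hik (α := α) (β := β) (γ := γ)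
  have hk'' := S.aux' hik.symm hjk.symm (α := γ) (β := α) (γ := β)
  have hj'' := S.aux' hij.symm hjk (α := β) (β := α) (γ := γ)
  have hi'' := S.aux' hij hik (α := α) (β := β) (γ := γ)
  rcases lt_trichotomy α 0 with ha | ha | ha
  · rcases le_total 0 β with hb | hb
    · rcases le_total 0 γ with hc | hc
      · exact (hi'' ha hb hc h).elim
      · have : 0 < β := by linarith
        exact (hj' this ha.le hc hj).elim
    · have : 0 < γ := by linarith
      exact (hk' this ha.le hb hk).elim
  · rcases lt_trichotomy β 0 with hb | hb | hb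
    · have : 0 < γ := by linarith
      exact (hk' this ha.le hb.le hk).elim
    · exact ⟨ha, hb, by linarith⟩
    · have : γ ≤ 0 := by linarith
      exact (hj' hb ha.le this hj).elim
  · rcases le_total β 0 with hb | hb
    · rcases le_total γ 0 with hc | hc
      · exact (hi' ha hb hc h).elim
      · have : β < 0 := by linarith
        exact (hj'' this ha.le hc hj).elim
    · have : γ < 0 := by linarith
      exact (hk'' this ha.le hb hk).elim

/-- Linear independence of three vectors in coordinates. -/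
def LI3 (x y z : V) : Prop := ∀ α β γ : ℝ, α • x + β • y + γ • z = 0 → α = 0 ∧ β = 0 ∧ γ = 0

theorem LI3.li {x y z : V} (h : LI3 x y z) : LinearIndependent ℝ ![x, y, z] := by
  rw [Fintype.linearIndependent_iff]
  intro g hg
  rw [Fin.sum_univ_three] at hg
  have := h (g 0) (g 1) (g 2) (by simpa using hg)
  intro i
  fin_cases i
  · exact this.1
  · exact this.2.1
  · exact this.2.2

theorem Sys.li3 (S : Sys K e a v) {i j k : ι} (hij : i ≠ j) (hik : i ≠ k) (hjk : j ≠ k) :
    LI3 (a i) (a j) (a k) := fun _ _ _ h => S.triple hij hik hjk h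

theorem exists_comb (hd : finrank ℝ V = 4) {x y z : V} (hli : LI3 x y z) {h : V →ₗ[ℝ] ℝ}
    (h0 : h ≠ 0) (hx : h x = 0) (hy : h y = 0) (hz : h z = 0) {u : V} (hu : h u = 0) :
    ∃ α β γ : ℝ, u = α • x + β • y + γ • z := by
  haveI : FiniteDimensional ℝ V := FiniteDimensional.of_finrank_pos (by rw [hd]; norm_num)
  have h1 : finrank ℝ (LinearMap.ker h) + 1 = finrank ℝ V :=
    Module.Dual.finrank_ker_add_one_of_ne_zero h0
  have h2 : finrank ℝ (Submodule.span ℝ (Set.range ![x, y, z])) = 3 := by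
    rw [finrank_span_eq_card hli.li]; simp
  have h3 : Submodule.span ℝ (Set.range ![x, y, z]) ≤ LinearMap.ker h := by
    rw [Submodule.span_le]
    rintro _ ⟨i, rfl⟩
    fin_cases i
    · exact hx
    · exact hy
    · exact hz
  have h4 : Submodule.span ℝ (Set.range ![x, y, z]) = LinearMap.ker h :=
    Submodule.eq_of_le_of_finrank_eq h3 (by omega)
  have h5 : u ∈ Submodule.span ℝ (Set.range ![x, y, z]) := by rw [h4]; exact hu
  rw [Submodule.mem_span_range_iff_exists_fun] at h5
  obtain ⟨c, hc⟩ := h5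
  rw [Fin.sum_univ_three] at hc
  exact ⟨c 0, c 1, c 2, by simpa using hc.symm⟩

/-- A functional which vanishes at three independent points of a hyperplane and at a point
outside is zero. -/
theorem vanish (hd : finrank ℝ V = 4) {x y z w : V} (hli : LI3 x y z) {h φ : V →ₗ[ℝ] ℝ}
    (hx : h x = 0) (hy : h y = 0) (hz : h z = 0) (hw : h w ≠ 0)
    (px : φ x = 0) (py : φ y = 0) (pz : φ z = 0) (pw : φ w = 0) : φ = 0 := by
  ext u
  have h0 : h ≠ 0 := by rintro rfl; exact hw rfl
  obtain ⟨α, β, γ, h1⟩ := exists_comb hd hli h0 hx hy hz (u := u - (h u / h w) • w) (by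
    rw [map_sub, map_smul, smul_eq_mul, div_mul_cancel₀ _ hw, sub_self])
  have h2 := congrArg φ h1
  rw [map_sub, map_smul, map_add, map_add, map_smul, map_smul, map_smul, px, py, pz, pw] at h2
  simpa using h2

end Pool.Agent.V11317.Prim
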